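import Pool.Agent.V11263.GaussF

namespace Pool.Agent.Results.MP_7519fb_mp.Continuous

open Matrix Topology Filter Pool.Agent.V11263.Gauss

/-- the operator monotone Möbius function -/
noncomputable def mob (η x : ℝ) : ℝ := (x + η) / (1 + η * x)

section mobius

variable {α : Type*} [Fintype α] [DecidableEq α]

lemma mob_eq {η x : ℝ} (hη : 0 < η) (hx : 0 < x) :
    mob η x = 1 / η - (1 / η - η) * (1 + η * x)⁻¹ := by
  have : 0 < 1 + η * x := by positivity
  rw [mob]
  field_simp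
  ring

lemma mob_pos {η x : ℝ} (hη : 0 < η) (hx : 0 < x) : 0 < mob η x := by
  unfold mob; positivity

lemma mob_inv {η x : ℝ} (hη : 0 < η) (hx : 0 < x) : mob η x⁻¹ = (mob η x)⁻¹ := by
  unfold mob
  field_simp

lemma fn_inv_eq {U : Matrix α α ℝ} (hU : U * Uᵀ = 1) (hU' : Uᵀ * U = 1) {z : α → ℝ} {η : ℝ}
    (hη : 0 < η) (hz : ∀ i, 0 < z i) :
    fn U z (fun x => (1 + η * x)⁻¹) = (1 + η • (U * diagonal z * Uᵀ))⁻¹ := by
  symm
  apply Matrix.inv_eq_right_inv
  have e : 1 + η • (U * diagonal z * Uᵀ) = fn U z (fun x => 1 + η * x) := by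
    have e1 : fn U z (fun x => 1 + η * x) - fn U z (fun x => η * x) = 1 := by
      rw [fn_sub, ← fn_one hU z]
      exact fn_congr fun i => by ring
    have e2 : fn U z (fun x => η * x) = η • (U * diagonal z * Uᵀ) := by
      rw [fn, ← smul_mul_assoc, ← mul_smul_comm]
      congr 2
      ext i j
      by_cases h : i = j
      · subst h; simp
      · simp [h]
    rw [← e2, ← e1]
    abel
  rw [e, fn_mul hU', ← fn_one hU z]
  exact fn_congr fun i => mul_inv_cancel₀ (by have := hz i; positivity)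

/-- operator monotonicity of the Möbius function -/
lemma mob_mono {U V : Matrix α α ℝ} (hU : U * Uᵀ = 1) (hU' : Uᵀ * U = 1) (hV : V * Vᵀ = 1)
    (hV' : Vᵀ * V = 1) {z w : α → ℝ} (hz : ∀ i, 0 < z i) (hw : ∀ i, 0 < w i) {η : ℝ}
    (hη : 0 < η) (hη1 : η < 1)
    (h : (V * diagonal w * Vᵀ - U * diagonal z * Uᵀ).PosSemidef) :
    (fn V w (mob η) - fn U z (mob η)).PosSemidef := by
  have hr : ∀ {U : Matrix α α ℝ} {z : α → ℝ}, U * Uᵀ = 1 → Uᵀ * U = 1 → (∀ i, 0 < z i) →
      fn U z (mob η) = (1 / η) • (1 : Matrix α α ℝ) -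
        (1 / η - η) • (1 + η • (U * diagonal z * Uᵀ))⁻¹ := by
    intro U z hU hU' hz
    rw [← fn_inv_eq hU hU' hη hz, fn_congr (g := fun x => 1 / η - (1 / η - η) * (1 + η * x)⁻¹)
      fun i => mob_eq hη (hz i), ← fn_sub]
    congr 1
    · rw [fn]
      have : (diagonal fun _ : α => 1 / η) = (1 / η) • (1 : Matrix α α ℝ) := by
        rw [Matrix.smul_one_eq_diagonal]
      rw [this, mul_smul_comm, smul_mul_assoc, mul_one, hU]
    · rw [fn, fn, ← smul_mul_assoc, ← mul_smul_comm]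
      congr 2
      ext i j
      by_cases h : i = j
      · subst h; simp
      · simp [h]
  rw [hr hU hU' hz, hr hV hV' hw]
  have hpd : ∀ {U : Matrix α α ℝ} {z : α → ℝ}, U * Uᵀ = 1 → (∀ i, 0 < z i) →
      (1 + η • (U * diagonal z * Uᵀ)).PosDef := by
    intro U z hU hz
    refine Matrix.PosDef.one.add_posSemidef ?_
    refine Matrix.PosSemidef.smul ?_ hη.le
    exact (fn_psd (U := U) (a := z) (f := fun x => x) fun i => (hz i).le)
  have h1 := inv_anti (hpd hU hz) (hpd hV hw) (by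
    have e : 1 + η • (V * diagonal w * Vᵀ) - (1 + η • (U * diagonal z * Uᵀ)) =
        η • (V * diagonal w * Vᵀ - U * diagonal z * Uᵀ) := by
      rw [smul_sub]; abel
    rw [e]
    exact h.smul hη.le)
  have e2 : ∀ P Q : Matrix α α ℝ, (1 / η) • (1 : Matrix α α ℝ) - (1 / η - η) • P -
      ((1 / η) • (1 : Matrix α α ℝ) - (1 / η - η) • Q) = (1 / η - η) • (Q - P) := by
    intro P Q
    rw [smul_sub]; abel
  rw [e2]
  apply h1.smul
  have : 1 < 1 / η := by rw [lt_div_iff₀ hη]; linarith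
  linarith

end mobius

section main

variable {n : ℕ}

/-- the inverse of a symplectic matrix -/
lemma sympl_inv {T : Matrix (Fin n × Fin 2) (Fin n × Fin 2) ℝ} (h : IsSymplectic T) :
    (-(symplForm n * Tᵀ * symplForm n)) * T = 1 ∧ T * (-(symplForm n * Tᵀ * symplForm n)) = 1 := by
  have h1 : (-(symplForm n * Tᵀ * symplForm n)) * T = 1 := by
    have h' : Tᵀ * symplForm n * T = symplForm n := h
    rw [neg_mul, mul_assoc, mul_assoc, ← mul_assoc Tᵀ, h', (symplForm_cs n).sq, neg_neg]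
  exact ⟨h1, mul_eq_one_comm.mp h1⟩

lemma G_le_pc {γ Z : Matrix (Fin n × Fin 2) (Fin n × Fin 2) ℝ} (hZ : Z.PosDef)
    (hs : Z * symplForm n * Z = symplForm n) (h : (γ - Z).PosSemidef) : G γ ≤ 1 / 2 * pc Z := by
  obtain ⟨S, R, hSt, hRt, hSS, hSR, hRS, hSJ⟩ := sqrt_sym (symplForm_cs n) hZ hs
  have hS : IsSymplectic S := by rw [IsSymplectic, hSt, hSJ]
  have h1 : Sᵀ * S = Z := by rw [hSt, hSS]
  have := G_le hS (by rw [h1]; exact h)
  rwa [squeezing_eq hS, h1] at this

/-- upper semicontinuity step -/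
lemma usc {ι : Type*} {l : Filter ι} {Tk : ι → Matrix (Fin n × Fin 2) (Fin n × Fin 2) ℝ}
    {T : Matrix (Fin n × Fin 2) (Fin n × Fin 2) ℝ} {dk : ι → Fin n → ℝ} {d : Fin n → ℝ}
    (hT : Tendsto Tk l (𝓝 T)) (hd : Tendsto dk l (𝓝 d)) (hTk : ∀ k, IsSymplectic (Tk k))
    (hTs : IsSymplectic T) (hdk : ∀ k i, 1 ≤ dk k i) (hd1 : ∀ i, 1 ≤ d i)
    {S : Matrix (Fin n × Fin 2) (Fin n × Fin 2) ℝ} (hS : IsSymplectic S)
    (hle : (Tᵀ * dd d * T - Sᵀ * S).PosSemidef) {ε : ℝ} (hε : 0 < ε) :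
    ∀ᶠ k in l, G ((Tk k)ᵀ * dd (dk k) * Tk k) ≤ squeezing S + ε := by
  have hJ := symplForm_cs n
  obtain ⟨Ti, hTi⟩ : ∃ Ti, Ti = -(symplForm n * Tᵀ * symplForm n) := ⟨_, rfl⟩
  obtain ⟨i1, i2⟩ := sympl_inv hTs
  rw [← hTi] at i1 i2
  -- the transformed pure state
  obtain ⟨Z, hZ⟩ : ∃ Z, Z = Tiᵀ * (Sᵀ * S) * Ti := ⟨_, rfl⟩
  have hTiu : IsUnit Ti := ⟨⟨Ti, T, i1, i2⟩, rfl⟩
  have hZpd : Z.PosDef := by
    have := (Matrix.IsUnit.posDef_star_left_conjugate_iff hTiu).mpr (Sym.gram_pd hJ hS)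
    rw [Matrix.star_eq_conjTranspose, Matrix.conjTranspose_eq_transpose_of_trivial] at this
    rw [hZ]; exact this
  have hTit : (Ti)ᵀ * Tᵀ = 1 := by rw [← Matrix.transpose_mul, i2, Matrix.transpose_one]
  have hTit' : Tᵀ * Tiᵀ = 1 := by rw [← Matrix.transpose_mul, i1, Matrix.transpose_one]
  have hTTs : T * symplForm n * Tᵀ = symplForm n := Sym.trans hJ hTs
  have hTis : Ti * symplForm n * Tiᵀ = symplForm n := by
    calc Ti * symplForm n * Tiᵀ = Ti * (T * symplForm n * Tᵀ) * Tiᵀ := by rw [hTTs]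
      _ = (Ti * T) * symplForm n * (Tᵀ * Tiᵀ) := by simp only [mul_assoc]
      _ = _ := by rw [i1, hTit', one_mul, mul_one]
  have hZs : Z * symplForm n * Z = symplForm n := by
    have hg := Sym.gram hJ hS
    have hTis' : Tiᵀ * symplForm n * Ti = symplForm n := by
      calc Tiᵀ * symplForm n * Ti = Tiᵀ * (Tᵀ * symplForm n * T) * Ti := by
            rw [show Tᵀ * symplForm n * T = symplForm n from hTs]
        _ = (Tiᵀ * Tᵀ) * symplForm n * (T * Ti) := by simp only [mul_assoc]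
        _ = _ := by rw [hTit, i2, one_mul, mul_one]
    calc Z * symplForm n * Z = Tiᵀ * (Sᵀ * S) * (Ti * symplForm n * Tiᵀ) * (Sᵀ * S) * Ti := by
          rw [hZ]; simp only [mul_assoc]
      _ = Tiᵀ * ((Sᵀ * S) * symplForm n * (Sᵀ * S)) * Ti := by rw [hTis]; simp only [mul_assoc]
      _ = symplForm n := by rw [hg, hTis']
  have hZD : (dd d - Z).PosSemidef := by
    have e : dd d - Z = Tiᵀ * (Tᵀ * dd d * T - Sᵀ * S) * Ti := by
      rw [mul_sub, sub_mul, ← hZ]
      congr 1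
      calc dd d = (Tiᵀ * Tᵀ) * dd d * (T * Ti) := by rw [hTit, i2, one_mul, mul_one]
        _ = _ := by simp only [mul_assoc]
    rw [e]
    exact psd_compress hle Ti
  have hTZT : Tᵀ * Z * T = Sᵀ * S := by
    rw [hZ]
    calc Tᵀ * (Tiᵀ * (Sᵀ * S) * Ti) * T = (Tᵀ * Tiᵀ) * (Sᵀ * S) * (Ti * T) := by
          simp only [mul_assoc]
      _ = _ := by rw [hTit', i1, one_mul, mul_one]
  obtain ⟨U, z, hU, hU', hZe, -, hz0⟩ := spec hZpd.isHermitian
  have hz := hz0 hZpd
  -- constants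
  set N : ℝ := (Fintype.card (Fin n × Fin 2) : ℝ) with hN
  have hN0 : 0 ≤ N := by positivity
  set c : ℝ := Real.exp (ε / (N + 1)) with hc
  have hc1 : 1 < c := by rw [hc]; exact Real.one_lt_exp_iff.mpr (by positivity)
  obtain ⟨m, hm, hmz⟩ := exists_lower z hz
  set η : ℝ := min (1 / 2) ((c - 1) * m) with hη
  have hη0 : 0 < η := by
    have : 0 < c - 1 := by linarith
    positivity
  have hη1 : η < 1 := lt_of_le_of_lt (min_le_left _ _) (by norm_num)
  have hηm : η ≤ (c - 1) * m := min_le_right _ _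
  obtain ⟨F, hF⟩ : ∃ F, F = fn U z (mob η) := ⟨_, rfl⟩
  have hFpd : F.PosDef := by rw [hF]; exact fn_pd hU fun i => mob_pos hη0 (hz i)
  have hFt : Fᵀ = F := by rw [hF]; exact fn_symm _ _ _
  have hFs : F * symplForm n * F = symplForm n := by
    have hZi : Z * fn U z (fun x => x⁻¹) = 1 := by
      rw [hZe]
      change fn U z (fun x => x) * _ = 1
      rw [fn_mul hU', ← fn_one hU z]
      exact fn_congr fun i => mul_inv_cancel₀ (hz i).ne'
    have h1 : Z * symplForm n = symplForm n * fn U z (fun x => x⁻¹) := by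
      calc Z * symplForm n = Z * symplForm n * (Z * fn U z (fun x => x⁻¹)) := by
            rw [hZi, mul_one]
        _ = (Z * symplForm n * Z) * fn U z (fun x => x⁻¹) := by simp only [mul_assoc]
        _ = _ := by rw [hZs]
    have h2 : fn U z (mob η) * symplForm n =
        symplForm n * fn U (fun i => (z i)⁻¹) (mob η) := by
      apply intertwine hU hU' hU hU'
      rw [← hZe, h1]
      rfl
    have h3 : fn U (fun i => (z i)⁻¹) (mob η) = fn U z (fun x => (mob η x)⁻¹) := by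
      unfold fn
      congr 2
      congr 1
      funext i
      exact mob_inv hη0 (hz i)
    have h4 : fn U z (fun x => (mob η x)⁻¹) * F = 1 := by
      rw [hF, fn_mul hU', ← fn_one hU z]
      exact fn_congr fun i => inv_mul_cancel₀ (mob_pos hη0 (hz i)).ne'
    rw [hF, h2, h3, ← hF, mul_assoc, h4, mul_one]
  have hFZ : (c • Z - F).PosSemidef := by
    have e : c • Z - F = fn U z (fun x => c * x - mob η x) := by
      rw [← fn_sub U z (fun x => c * x) (mob η), hF]
      congr 1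
      rw [fn]
      nth_rewrite 1 [hZe]
      rw [← smul_mul_assoc, ← mul_smul_comm]
      congr 2
      ext i j
      by_cases h : i = j
      · subst h; simp
      · simp [h]
    rw [e]
    refine fn_psd fun i => ?_
    have hzi := hz i
    have h1 : mob η (z i) ≤ z i + η := by
      unfold mob
      apply div_le_self (by positivity)
      nlinarith
    have h2 : (c - 1) * m ≤ (c - 1) * z i :=
      mul_le_mul_of_nonneg_left (hmz i) (by linarith)
    linarith
  have hFD : (dd (fun i => mob η (d i)) - F).PosSemidef := by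
    have h1 := mob_mono hU hU' (V := 1) (w := fun p : Fin n × Fin 2 => d p.1) (by simp) (by simp)
      hz (fun p => lt_of_lt_of_le one_pos (hd1 p.1)) hη0 hη1 (by
        rw [← hZe]
        simpa [dd] using hZD)
    rw [← hF] at h1
    simpa [fn, dd] using h1
  -- eventually `mob η d ≤ dk`
  have hev1 : ∀ᶠ k in l, ∀ i, mob η (d i) ≤ dk k i := by
    rw [Filter.eventually_all]
    intro i
    rcases eq_or_lt_of_le (hd1 i) with h | h
    · refine Filter.Eventually.of_forall fun k => ?_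
      rw [← h]
      have : mob η 1 = 1 := by
        unfold mob
        rw [mul_one, div_self]
        positivity
      rw [this]
      exact hdk k i
    · have hlt : mob η (d i) < d i := by
        have hdi : 0 < d i := by linarith
        unfold mob
        rw [div_lt_iff₀ (by positivity)]
        have h5 : 1 < d i * d i := by nlinarith
        nlinarith [mul_lt_mul_of_pos_left h5 hη0]
      have h1 : Tendsto (fun k => dk k i) l (𝓝 (d i)) := tendsto_pi_nhds.mp hd i
      filter_upwards [h1.eventually (lt_mem_nhds hlt)] with k hk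
      exact hk.le
  -- convergence of the pure states
  have hcont : Tendsto (fun k => (Tk k)ᵀ * F * Tk k) l (𝓝 (Tᵀ * F * T)) := by
    have hc : Continuous fun M : Matrix (Fin n × Fin 2) (Fin n × Fin 2) ℝ => Mᵀ * F * M := by
      fun_prop
    exact (hc.tendsto T).comp hT
  have hpdT : ∀ {R : Matrix (Fin n × Fin 2) (Fin n × Fin 2) ℝ}, IsSymplectic R →
      (Rᵀ * F * R).PosDef := by
    intro R hR
    have hu : IsUnit R := ⟨⟨R, _, (sympl_inv hR).2, (sympl_inv hR).1⟩, rfl⟩
    have := (Matrix.IsUnit.posDef_star_left_conjugate_iff hu).mpr hFpd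
    rwa [Matrix.star_eq_conjTranspose, Matrix.conjTranspose_eq_transpose_of_trivial] at this
  have hev2 := dom (hpdT hTs) hc1 hcont (fun k => by
    rw [Matrix.transpose_mul, Matrix.transpose_mul, hFt, Matrix.transpose_transpose, mul_assoc])
  filter_upwards [hev1, hev2] with k hk1 hk2
  have hks : ((Tk k)ᵀ * F * Tk k) * symplForm n * ((Tk k)ᵀ * F * Tk k) = symplForm n := by
    have hR := hTk k
    have hR2 : Tk k * symplForm n * (Tk k)ᵀ = symplForm n := Sym.trans hJ hR
    calc ((Tk k)ᵀ * F * Tk k) * symplForm n * ((Tk k)ᵀ * F * Tk k)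
        = (Tk k)ᵀ * F * (Tk k * symplForm n * (Tk k)ᵀ) * F * Tk k := by simp only [mul_assoc]
      _ = (Tk k)ᵀ * (F * symplForm n * F) * Tk k := by rw [hR2]; simp only [mul_assoc]
      _ = symplForm n := by rw [hFs]; exact hR
  have hkle : ((Tk k)ᵀ * dd (dk k) * Tk k - (Tk k)ᵀ * F * Tk k).PosSemidef := by
    have e : (Tk k)ᵀ * dd (dk k) * Tk k - (Tk k)ᵀ * F * Tk k =
        (Tk k)ᵀ * ((dd (dk k) - dd (fun i => mob η (d i))) + (dd (fun i => mob η (d i)) - F)) *
          Tk k := by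
      rw [sub_add_sub_cancel, mul_sub, sub_mul]
    rw [e]
    refine psd_compress (Matrix.PosSemidef.add ?_ hFD) _
    have e2 : dd (dk k) - dd (fun i => mob η (d i)) =
        diagonal (fun p : Fin n × Fin 2 => dk k p.1 - mob η (d p.1)) := by
      rw [dd, dd, Matrix.diagonal_sub]
    rw [e2, Matrix.posSemidef_diagonal_iff]
    exact fun p => sub_nonneg.mpr (hk1 p.1)
  have g1 := G_le_pc (hpdT (hTk k)) hks hkle
  have hSpd := Sym.gram_pd hJ hS
  have p1 := pc_scale (hpdT hTs) (hpdT (hTk k)) hc1.le hk2.1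
  have p2 : pc (Tᵀ * F * T) ≤ pc (Sᵀ * S) + N * Real.log c := by
    apply pc_scale hSpd (hpdT hTs) hc1.le
    have e : c • (Sᵀ * S) - Tᵀ * F * T = Tᵀ * (c • Z - F) * T := by
      rw [mul_sub, sub_mul, mul_smul_comm, smul_mul_assoc, hTZT]
    rw [e]
    exact psd_compress hFZ T
  rw [squeezing_eq hS]
  have hlog : Real.log c = ε / (N + 1) := by rw [hc, Real.log_exp]
  rw [hlog] at p1 p2
  have hfin : N * (ε / (N + 1)) ≤ ε := by
    rw [← mul_div_assoc, div_le_iff₀ (by positivity)]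
    nlinarith
  linarith

/-- lower semicontinuity step -/
lemma lsc {ι : Type*} {l : Filter ι} [l.NeBot]
    {γk Sk : ι → Matrix (Fin n × Fin 2) (Fin n × Fin 2) ℝ}
    {γ S : Matrix (Fin n × Fin 2) (Fin n × Fin 2) ℝ}
    (hγ : Tendsto γk l (𝓝 γ)) (hSk : Tendsto Sk l (𝓝 S)) (hs : ∀ k, IsSymplectic (Sk k))
    (hle : ∀ k, (γk k - (Sk k)ᵀ * Sk k).PosSemidef) {ε : ℝ} (hε : 0 < ε) :
    ∀ᶠ k in l, G γ ≤ squeezing (Sk k) + ε := by
  have hJ := symplForm_cs n
  have hcg : Continuous fun M : Matrix (Fin n × Fin 2) (Fin n × Fin 2) ℝ => Mᵀ * M := by fun_prop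
  have hg : Tendsto (fun k => (Sk k)ᵀ * Sk k) l (𝓝 (Sᵀ * S)) := (hcg.tendsto S).comp hSk
  have hS : IsSymplectic S := by
    have hc : Continuous fun M : Matrix (Fin n × Fin 2) (Fin n × Fin 2) ℝ =>
        Mᵀ * symplForm n * M := by fun_prop
    have h1 : Tendsto (fun k => (Sk k)ᵀ * symplForm n * Sk k) l (𝓝 (Sᵀ * symplForm n * S)) :=
      (hc.tendsto S).comp hSk
    have h2 : (fun k => (Sk k)ᵀ * symplForm n * Sk k) = fun _ => symplForm n := by
      funext k; exact hs k
    rw [h2] at h1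
    exact tendsto_nhds_unique h1 tendsto_const_nhds
  have hle' : (γ - Sᵀ * S).PosSemidef := psd_closed (hγ.sub hg) hle
  set N : ℝ := (Fintype.card (Fin n × Fin 2) : ℝ) with hN
  have hN0 : 0 ≤ N := by positivity
  set c : ℝ := Real.exp (ε / (N + 1)) with hc
  have hc1 : 1 < c := by rw [hc]; exact Real.one_lt_exp_iff.mpr (by positivity)
  have hev := dom (Sym.gram_pd hJ hS) hc1 hg (fun k => by
    rw [Matrix.transpose_mul, Matrix.transpose_transpose])
  filter_upwards [hev] with k hk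
  have p1 := pc_scale (Sym.gram_pd hJ (hs k)) (Sym.gram_pd hJ hS) hc1.le hk.2
  have g1 := G_le hS hle'
  rw [squeezing_eq hS] at g1
  rw [squeezing_eq (hs k)]
  have hlog : Real.log c = ε / (N + 1) := by rw [hc, Real.log_exp]
  rw [hlog] at p1
  have hfin : N * (ε / (N + 1)) ≤ ε := by
    rw [← mul_div_assoc, div_le_iff₀ (by positivity)]
    nlinarith
  linarith

/-- entries of symplectic matrices below `γ` are bounded -/
lemma entry_bound {γ S : Matrix (Fin n × Fin 2) (Fin n × Fin 2) ℝ} {M : ℝ}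
    (h : (γ - Sᵀ * S).PosSemidef) (hM : ∀ p, γ p p ≤ M) (p q : Fin n × Fin 2) :
    |S p q| ≤ M + 1 := by
  have h1 := h.diag_nonneg (i := q)
  rw [Matrix.sub_apply, Matrix.mul_apply] at h1
  have h2 : S p q ^ 2 ≤ ∑ j, Sᵀ q j * S j q := by
    have := Finset.single_le_sum (f := fun j => Sᵀ q j * S j q)
      (fun j _ => mul_self_nonneg (S j q)) (Finset.mem_univ p)
    calc S p q ^ 2 = Sᵀ q p * S p q := by rw [Matrix.transpose_apply]; ring
      _ ≤ _ := this
  have h3 := hM q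
  have h4 : S p q ^ 2 ≤ M := by linarith
  rw [abs_le]
  constructor <;> nlinarith [sq_nonneg (S p q - 1), sq_nonneg (S p q + 1)]

/-- symplectic eigenvalues are bounded by the trace -/
lemma d_bound {T : Matrix (Fin n × Fin 2) (Fin n × Fin 2) ℝ} {d : Fin n → ℝ}
    (hT : IsSymplectic T) (hd : ∀ i, 1 ≤ d i) (i : Fin n) :
    d i ≤ (Tᵀ * dd d * T).trace := by
  have h1 : (Tᵀ * dd d * T).trace = ∑ p : Fin n × Fin 2, d p.1 * ∑ q, T p q ^ 2 := by
    rw [Matrix.trace_mul_comm, ← mul_assoc, Matrix.trace]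
    refine Finset.sum_congr rfl fun p _ => ?_
    rw [Matrix.diag_apply, dd, Matrix.mul_diagonal, Matrix.mul_apply, mul_comm]
    congr 1
    refine Finset.sum_congr rfl fun q _ => ?_
    rw [Matrix.transpose_apply]; ring
  have h2 : T * symplForm n * Tᵀ = symplForm n := Sym.trans (symplForm_cs n) hT
  have h3 := congrFun (congrFun h2 (i, 0)) (i, 1)
  have h4 : (1 : ℝ) ≤ ∑ q, T (i, 0) q ^ 2 + ∑ q, T (i, 1) q ^ 2 := by
    have e1 : symplForm n (i, 0) (i, 1) = 1 := by
      simp [symplForm, Matrix.kroneckerMap_apply]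
    rw [e1] at h3
    set a : Fin n × Fin 2 → ℝ := fun q => T (i, 0) q
    set b : Fin n × Fin 2 → ℝ := fun q => T (i, 1) q
    have e2 : (T * symplForm n * Tᵀ) (i, 0) (i, 1) = a ⬝ᵥ symplForm n *ᵥ b := by
      rw [mul_assoc]
      simp only [Matrix.mul_apply, dotProduct, Matrix.mulVec, Matrix.transpose_apply]
      rfl
    rw [e2] at h3
    have e3 : (symplForm n *ᵥ b) ⬝ᵥ (symplForm n *ᵥ b) = b ⬝ᵥ b := by
      rw [Matrix.dotProduct_mulVec, ← Matrix.mulVec_transpose, Matrix.mulVec_mulVec,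
        (symplForm_cs n).tmul, Matrix.one_mulVec]
    have e4 : 0 ≤ (a - symplForm n *ᵥ b) ⬝ᵥ (a - symplForm n *ᵥ b) := by
      rw [dotProduct]; exact Finset.sum_nonneg fun i _ => mul_self_nonneg _
    rw [sub_dotProduct, dotProduct_sub, dotProduct_sub, e3,
      dotProduct_comm (symplForm n *ᵥ b) a, h3] at e4
    have e5 : a ⬝ᵥ a = ∑ q, T (i, 0) q ^ 2 := by
      rw [dotProduct]; exact Finset.sum_congr rfl fun q _ => by ring
    have e6 : b ⬝ᵥ b = ∑ q, T (i, 1) q ^ 2 := by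
      rw [dotProduct]; exact Finset.sum_congr rfl fun q _ => by ring
    rw [e5, e6] at e4
    linarith
  obtain ⟨s, hs⟩ : ∃ s : Fin n × Fin 2 → ℝ, ∀ p, ∑ q, T p q ^ 2 = s p := ⟨_, fun _ => rfl⟩
  simp only [hs] at h1 h4
  have hs0 : ∀ p, 0 ≤ s p := fun p => by
    rw [← hs]; exact Finset.sum_nonneg fun q _ => sq_nonneg _
  have h5 : d i * (s (i, 0) + s (i, 1)) ≤ (Tᵀ * dd d * T).trace := by
    rw [h1, Fintype.sum_prod_type]
    simp only [Fin.sum_univ_two]
    have := Finset.single_le_sum (f := fun x : Fin n => d x * s (x, 0) + d x * s (x, 1))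
      (fun x _ => by
        have := hd x
        have := hs0 (x, 0)
        have := hs0 (x, 1)
        positivity) (Finset.mem_univ i)
    calc _ = d i * s (i, 0) + d i * s (i, 1) := by ring
      _ ≤ _ := this
  have := hd i
  nlinarith

lemma lim_mat {X : Type*} (g : Ultrafilter X) {α : Type*} [Fintype α] (A : X → Matrix α α ℝ)
    (B : ℝ) (h : ∀ᶠ x in (g : Filter X), ∀ p q, |A x p q| ≤ B) :
    ∃ L, Tendsto A (g : Filter X) (𝓝 L) := by
  have hK : IsCompact (Set.pi Set.univ fun _ : α => Set.pi Set.univ fun _ : α =>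
      Set.Icc (-B) B : Set (α → α → ℝ)) :=
    isCompact_univ_pi fun _ => isCompact_univ_pi fun _ => isCompact_Icc
  obtain ⟨L, -, hL⟩ := hK.ultrafilter_le_nhds (g.map A) (by
    rw [Filter.le_principal_iff]
    change _ ∈ Filter.map A (g : Filter X)
    rw [Filter.mem_map]
    filter_upwards [h] with x hx
    intro p _ q _
    exact abs_le.mp (hx p q))
  exact ⟨L, hL⟩

lemma lim_vec {X : Type*} (g : Ultrafilter X) {α : Type*} [Fintype α] (A : X → α → ℝ)
    (B : ℝ) (h : ∀ᶠ x in (g : Filter X), ∀ p, |A x p| ≤ B) :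
    ∃ L, Tendsto A (g : Filter X) (𝓝 L) := by
  have hK : IsCompact (Set.pi Set.univ fun _ : α => Set.Icc (-B) B : Set (α → ℝ)) :=
    isCompact_univ_pi fun _ => isCompact_Icc
  obtain ⟨L, -, hL⟩ := hK.ultrafilter_le_nhds (g.map A) (by
    rw [Filter.le_principal_iff]
    change _ ∈ Filter.map A (g : Filter X)
    rw [Filter.mem_map]
    filter_upwards [h] with x hx
    intro p _
    exact abs_le.mp (hx p))
  exact ⟨L, hL⟩

lemma near_min {γ : Matrix (Fin n × Fin 2) (Fin n × Fin 2) ℝ} (h : IsCovariance γ) {ε : ℝ}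
    (hε : 0 < ε) : ∃ S : Matrix (Fin n × Fin 2) (Fin n × Fin 2) ℝ, IsSymplectic S ∧
      (γ - Sᵀ * S).PosSemidef ∧ squeezing S < G γ + ε := by
  obtain ⟨c, ⟨S, hS, hle, rfl⟩, hc⟩ := exists_lt_of_csInf_lt (admissible_nonempty h)
    (by change G γ < G γ + ε; linarith : sInf (admissible γ) < G γ + ε)
  exact ⟨S, hS, hle, hc⟩

/-- MP_7519fb, Q1: `G` is continuous on the set of covariance matrices. -/
theorem result (n : ℕ) : ContinuousOn (G : Matrix (Fin n × Fin 2) (Fin n × Fin 2) ℝ → ℝ)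
    {γ | IsCovariance γ} := by
  rw [continuousOn_iff_continuous_domRestrict, continuous_iff_ultrafilter]
  rintro ⟨γ, hγ⟩ g hg
  have hW : Tendsto (fun W : {γ : Matrix (Fin n × Fin 2) (Fin n × Fin 2) ℝ | IsCovariance γ} =>
      W.1) (g : Filter _) (𝓝 γ) := by
    have h1 : Tendsto (fun W : {γ : Matrix (Fin n × Fin 2) (Fin n × Fin 2) ℝ | IsCovariance γ} =>
      W.1) (𝓝 ⟨γ, hγ⟩) (𝓝 γ) := continuous_subtype_val.tendsto _
    exact h1.mono_left hg
  have hdiag : ∀ᶠ W : {γ : Matrix (Fin n × Fin 2) (Fin n × Fin 2) ℝ | IsCovariance γ} in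
      (g : Filter _), ∀ p, W.1 p p ≤ ∑ q, |γ q q| + 1 := by
    rw [Filter.eventually_all]
    intro p
    have h1 : Tendsto (fun W : {γ : Matrix (Fin n × Fin 2) (Fin n × Fin 2) ℝ | IsCovariance γ} =>
        W.1 p p) (g : Filter _) (𝓝 (γ p p)) :=
      (tendsto_pi_nhds.mp (tendsto_pi_nhds.mp hW p)) p
    have h2 : γ p p < ∑ q, |γ q q| + 1 := by
      have h5 : |γ p p| ≤ ∑ q, |γ q q| :=
        Finset.single_le_sum (f := fun q => |γ q q|) (fun q _ => abs_nonneg _)
          (Finset.mem_univ p)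
      have h6 := le_abs_self (γ p p)
      linarith
    filter_upwards [h1.eventually (gt_mem_nhds h2)] with W hW
    exact hW.le
  set M : ℝ := ∑ q, |γ q q| + 1 with hM
  choose T d hT hd hTd using fun W :
    {γ : Matrix (Fin n × Fin 2) (Fin n × Fin 2) ℝ | IsCovariance γ} => williamson W.2
  -- limits of the Williamson data
  have hTle : ∀ W, (W.1 - (T W)ᵀ * T W).PosSemidef := by
    intro W
    have e : W.1 - (T W)ᵀ * T W = (T W)ᵀ * (dd (d W) - 1) * T W := by
      rw [mul_sub, sub_mul, mul_one, ← hTd W]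
    rw [e]
    apply psd_compress
    have e2 : dd (d W) - 1 = diagonal (fun p : Fin n × Fin 2 => d W p.1 - 1) := by
      rw [dd, ← Matrix.diagonal_one, Matrix.diagonal_sub]
    rw [e2, Matrix.posSemidef_diagonal_iff]
    exact fun p => sub_nonneg.mpr (hd W p.1)
  obtain ⟨T₀, hT₀⟩ := lim_mat g T (M + 1) (by
    filter_upwards [hdiag] with W hW p q
    exact entry_bound (hTle W) hW p q)
  obtain ⟨d₀, hd₀⟩ := lim_vec g d (Fintype.card (Fin n × Fin 2) * M) (by
    filter_upwards [hdiag] with W hW i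
    have h1 := d_bound (hT W) (hd W) i
    rw [← hTd W] at h1
    have h2 : W.1.trace ≤ Fintype.card (Fin n × Fin 2) * M := by
      rw [Matrix.trace]
      calc ∑ p, W.1.diag p ≤ ∑ p : Fin n × Fin 2, M := Finset.sum_le_sum fun p _ => hW p
        _ = _ := by rw [Finset.sum_const, Finset.card_univ, nsmul_eq_mul]
    rw [abs_of_nonneg (by linarith [hd W i])]
    linarith)
  have hT₀s : IsSymplectic T₀ := by
    have hc : Continuous fun M : Matrix (Fin n × Fin 2) (Fin n × Fin 2) ℝ =>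
        Mᵀ * symplForm n * M := by fun_prop
    have h1 := (hc.tendsto T₀).comp hT₀
    have h2 : (fun M : Matrix (Fin n × Fin 2) (Fin n × Fin 2) ℝ => Mᵀ * symplForm n * M) ∘ T =
        fun _ => symplForm n := by
      funext k; exact hT k
    rw [h2] at h1
    exact tendsto_nhds_unique h1 tendsto_const_nhds
  have hd₀1 : ∀ i, 1 ≤ d₀ i := fun i =>
    ge_of_tendsto' (tendsto_pi_nhds.mp hd₀ i) fun W => hd W i
  have hγe : γ = T₀ᵀ * dd d₀ * T₀ := by
    have hc : Continuous fun p : Matrix (Fin n × Fin 2) (Fin n × Fin 2) ℝ × (Fin n → ℝ) =>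
        p.1ᵀ * dd p.2 * p.1 := by
      unfold dd
      fun_prop
    have h1 := (hc.tendsto (T₀, d₀)).comp (hT₀.prodMk_nhds hd₀)
    have h2 : (fun p : Matrix (Fin n × Fin 2) (Fin n × Fin 2) ℝ × (Fin n → ℝ) =>
        p.1ᵀ * dd p.2 * p.1) ∘ (fun W => (T W, d W)) = fun W => W.1 := by
      funext W
      exact (hTd W).symm
    rw [h2] at h1
    exact tendsto_nhds_unique hW h1
  rw [Metric.tendsto_nhds]
  intro ε hε
  have hε4 : 0 < ε / 4 := by linarith
  -- upper bound
  obtain ⟨S₀, hS₀, hS₀le, hS₀c⟩ := near_min hγ hε4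
  have hup := usc hT₀ hd₀ hT hT₀s hd hd₀1 hS₀ (by rw [← hγe]; exact hS₀le) hε4
  -- lower bound
  choose S hS hSle hSc using fun W :
    {γ : Matrix (Fin n × Fin 2) (Fin n × Fin 2) ℝ | IsCovariance γ} => near_min W.2 hε4
  obtain ⟨S₁, hS₁⟩ := lim_mat g S (M + 1) (by
    filter_upwards [hdiag] with W hW p q
    exact entry_bound (hSle W) hW p q)
  have hlow := lsc hW hS₁ hS hSle hε4
  filter_upwards [hup, hlow] with W h1 h2
  rw [← hTd W] at h1
  have h3 := hSc W
  change dist (G W.1) (G γ) < ε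
  rw [Real.dist_eq, abs_lt]
  constructor <;> linarith

end main

end Pool.Agent.Results.MP_7519fb_mp.Continuous
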